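import Pool.Agent.helper69.FQ.Order
import Pool.Agent.helper2.Fermat.SharpPow

namespace Pool.Agent.helper33.Reserve.MP_37e5fa_QuarterGap

/-- Let `F = 2 ^ (2 ^ m) + 1`. If `D = k * 2 ^ n + 1 ≠ F`, `k` odd, divides `F`, then
`4 n < 2 ^ m` and `D ^ n < k ^ (2 ^ m)`. If the order of one unit modulo `F` is divisible by
`2 ^ t` with `4 t ≥ 2 ^ m`, then `F` is prime. -/
theorem result (m : ℕ) :
    (∀ k n : ℕ, Odd k → k * 2 ^ n + 1 ∣ 2 ^ 2 ^ m + 1 → k * 2 ^ n + 1 ≠ 2 ^ 2 ^ m + 1 →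
      4 * n < 2 ^ m ∧ (k * 2 ^ n + 1) ^ n < k ^ 2 ^ m) ∧
    (∀ (a : (ZMod (2 ^ 2 ^ m + 1))ˣ) (t : ℕ), 2 ^ m ≤ 4 * t → 2 ^ t ∣ orderOf a →
      Nat.Prime (2 ^ 2 ^ m + 1)) := by
  refine ⟨?_, fun a t ht ha => Pool.Agent.helper69.FQ.prime_of_order m t a ht ha⟩
  intro k n hk hd hne
  have hkpos : 0 < k := hk.pos
  have hk1 : 1 < k := by
    rcases Nat.lt_or_ge 1 k with h | h
    · exact h
    · exfalso
      have h1 : k = 1 := by omega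
      rw [h1, one_mul] at hd hne
      have := Pool.Agent.helper69.FQ.no_pow_add_one m n hd
      rw [this] at hne
      exact hne rfl
  refine ⟨?_, Pool.Agent.helper2.Fermat.sharp_pow m k n hk hk1 hd⟩
  by_contra hge
  push Not at hge
  have hD1 : 1 < k * 2 ^ n + 1 := by
    have := Nat.mul_pos hkpos (Nat.two_pow_pos n)
    omega
  have hmod : k * 2 ^ n + 1 ≡ 1 [MOD 2 ^ n] := by
    have h2 : k * 2 ^ n + 1 ≡ 0 + 1 [MOD 2 ^ n] :=
      Nat.ModEq.add_right 1 ((Nat.modEq_zero_iff_dvd).2 ⟨k, by ring⟩)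
    rwa [zero_add] at h2
  exact hne (Pool.Agent.helper69.FQ.quarter m n (k * 2 ^ n + 1) hd hD1 hge hmod)

end Pool.Agent.helper33.Reserve.MP_37e5fa_QuarterGap
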