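import Pool.Agent.helper69.FQ.QuarterGen
import Pool.Agent.helper69.FQ.Shape

namespace Pool.Agent.helper33.Reserve.MP_a70bdc_QuarterGap

/-- Let `n = 2 ^ a` with `a` not divisible by `3` (for instance `n = 2 ^ (2 ^ s)`).
If `k * 2 ^ r + 1 ≠ n ^ n + 1`, `k` odd, divides `n ^ n + 1`, then `4 r < n a = n log₂ n`, and
`r ^ 2 + r L + L ^ 2 < n a L + r + L`, where `L = log₂ k`, if `k > 1`. If the order of one unit
modulo `n ^ n + 1` is divisible by `2 ^ t` with `4 t ≥ n a`, then `n ^ n + 1` is prime. -/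
theorem result (a n : ℕ) (hn : n = 2 ^ a) (h3 : ¬ 3 ∣ a) :
    (∀ k r : ℕ, Odd k → k * 2 ^ r + 1 ∣ n ^ n + 1 → k * 2 ^ r + 1 ≠ n ^ n + 1 →
      4 * r < n * a ∧
      (1 < k → (r : ℝ) ^ 2 + r * Real.logb 2 k + Real.logb 2 k ^ 2 <
        n * a * Real.logb 2 k + r + Real.logb 2 k)) ∧
    (∀ (u : (ZMod (n ^ n + 1))ˣ) (t : ℕ), n * a ≤ 4 * t → 2 ^ t ∣ orderOf u →
      Nat.Prime (n ^ n + 1)) := by
  have ha : a ≠ 0 := by rintro rfl; exact h3 (dvd_zero 3)
  obtain ⟨M, hM⟩ : ∃ M, M = a * 2 ^ (a - 1) := ⟨_, rfl⟩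
  have h2M : n * a = 2 * M := by
    have : 2 ^ a = 2 * 2 ^ (a - 1) := by
      rw [← pow_succ']
      congr 1
      omega
    rw [hn, hM, this]
    ring
  have e : n ^ n = 2 ^ (2 * M) := by
    rw [← h2M]
    conv_lhs => rw [hn]
    rw [← pow_mul, hn, mul_comm]
  have hM3 : ¬ 3 ∣ M := by
    intro h
    rw [hM] at h
    rcases (Nat.Prime.dvd_mul (by norm_num)).1 h with h | h
    · exact h3 h
    · have := Nat.Prime.dvd_of_dvd_pow (by norm_num) h
      omega
  have hMe : M = 1 ∨ Even M := by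
    rcases Nat.lt_or_ge a 2 with h | h
    · left
      have : a = 1 := by omega
      rw [hM, this]
      norm_num
    · right
      rw [hM]
      exact (Nat.even_pow.2 ⟨even_two, by omega⟩).mul_left a
  rw [e, h2M]
  refine ⟨?_, ?_⟩
  · intro k r hk hd hne
    constructor
    · by_contra hge
      push Not at hge
      have hkpos := hk.pos
      have hD1 : 1 < k * 2 ^ r + 1 := by
        have := Nat.mul_pos hkpos (Nat.two_pow_pos r)
        omega
      have hmod : k * 2 ^ r + 1 ≡ 1 [MOD 2 ^ r] := by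
        have h2 : k * 2 ^ r + 1 ≡ 0 + 1 [MOD 2 ^ r] :=
          Nat.ModEq.add_right 1 ((Nat.modEq_zero_iff_dvd).2 ⟨k, by ring⟩)
        rwa [zero_add] at h2
      exact hne (Pool.Agent.helper69.FQ.quarter_gen M r (k * 2 ^ r + 1) hM3 hMe hd hD1
        (by omega) hmod)
    · intro hk1
      have := Pool.Agent.helper69.FQ.factor_shape (2 * M) k r hk hk1 hd
      have e3 : (n : ℝ) * a = ((2 * M : ℕ) : ℝ) := by
        rw [← h2M]
        push_cast
        ring
      rw [e3]
      exact this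
  · intro u t ht hu
    exact Pool.Agent.helper69.FQ.prime_of_order_gen M t hM3 hMe u (by omega) hu

end Pool.Agent.helper33.Reserve.MP_a70bdc_QuarterGap
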