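import Pool.Agent.helper44.EX.All
import Pool.Agent.helper45.BR.Cor

/-!
# Uniformly thin pull-backs and density of hyperbolicity

`multibrot n` and `hyperbolic n` are defined in `Pool/Agent/helper16/Multibrot/Defs.lean`.
-/

set_option autoImplicit false

open Metric Set Filter Pool.Agent.helper16.Multibrot

namespace Pool.Agent.Results.MP_af9036_an.ThinPullbacks

/-- The pseudo-hyperbolic distance of the unit disc. -/
noncomputable def pseudoDist (a b : ℂ) : ℝ := ‖a - b‖ / ‖1 - (starRingEnd ℂ) a * b‖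

/-- Every disc around `0` is visited by the orbit of `0` with bounded gaps. -/
def RecurrentOrbit (f : ℂ → ℂ) : Prop :=
  ∀ r > (0 : ℝ), ∃ N : ℕ, ∀ i : ℕ, ∃ s : ℕ, 1 ≤ s ∧ s ≤ N ∧ ‖f^[i + s] 0‖ < r

/-- `V = φ (𝔻)` is a simply connected neighbourhood of `0` (`φ` is a Riemann map with `φ 0 = 0`),
and `U ⊆ V` contains, for every `l ≥ 1`, the connected component containing `0` of the preimage
`f^{-l}(V)` (if it contains `0`); the set `V \ U` is `δ`-dense: every point of `U` is at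
pseudo-hyperbolic distance (in `V`) at most `δ` from a point of `V \ U`. -/
structure IsThin (f : ℂ → ℂ) (δ : ℝ) (φ : ℂ → ℂ) (U : Set ℂ) : Prop where
  differentiableOn : DifferentiableOn ℂ φ (ball 0 1)
  injOn : InjOn φ (ball 0 1)
  map_zero : φ 0 = 0
  subset : U ⊆ φ '' ball 0 1
  component : ∀ l : ℕ, 1 ≤ l → connectedComponentIn {z | f^[l] z ∈ φ '' ball 0 1} 0 ⊆ U
  thin : ∀ a ∈ ball (0 : ℂ) 1, φ a ∈ U →
    ∃ b ∈ ball (0 : ℂ) 1, φ b ∉ U ∧ pseudoDist a b ≤ δ

/-- Let `n ≥ 3`, `δ < 1`. If the critical point `0` of `f z = z ^ n + c` returns to each of its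
neighbourhoods with bounded gaps, and if for every `r > 0` there is a simply connected
neighbourhood `V = φ (𝔻)` of `0`, containing no disc of radius `r`, whose pull-backs to `0` are
contained in a set `U ⊆ V` with `δ`-dense complement in `V`, then `c` is a limit of parameters
`c'` for which `z ^ n + c'` has an attracting cycle. -/
theorem result (n : ℕ) (c : ℂ) (δ : ℝ) (hn : 3 ≤ n) (hδ : δ < 1)
    (hrec : RecurrentOrbit (fun z : ℂ => z ^ n + c))
    (hthin : ∀ r > (0 : ℝ), ∃ (φ : ℂ → ℂ) (U : Set ℂ),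
      IsThin (fun z : ℂ => z ^ n + c) δ φ U ∧ ∀ w : ℂ, ¬ ball w r ⊆ φ '' ball 0 1) :
    c ∈ closure (hyperbolic n) := by
  refine BR.mem_closure_of_no_line_field (by omega) ?_ ?_
  · intro h
    obtain ⟨N, hN⟩ := hrec 1 one_pos
    obtain ⟨K, hK⟩ := eventually_atTop.1 (h.eventually_ge_atTop 1)
    obtain ⟨s, h1, h2, h3⟩ := hN K
    exact absurd (hK (K + s) (by omega)) (not_le.2 h3)
  · refine EX.final n c δ hn hδ (fun r hr => ?_) (fun r hr => ?_)
    · obtain ⟨N, hN⟩ := hrec r hr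
      refine ⟨N, fun i => ?_⟩
      obtain ⟨s, h1, h2, h3⟩ := hN i
      exact ⟨s, Finset.mem_Icc.2 ⟨h1, h2⟩, h3⟩
    · obtain ⟨φ, U, h, hr'⟩ := hthin r hr
      exact ⟨φ, U, ⟨h.1, h.2, h.3, h.4, h.5, h.6⟩, hr'⟩

end Pool.Agent.Results.MP_af9036_an.ThinPullbacks
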